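import Mathlib

/-!
# Irreducibility of `X ^ a + b ^ (2 ^ m)` over `ℚ`
-/

set_option autoImplicit false

namespace Pool.Agent.H95.EB

open Polynomial

/-- if `c ^ a = b ^ N` and `b` is not a `p`-th power for a prime `p`, then the `p`-part of `a`
divides `N` -/
lemma pow_dvd_of_pow_eq {b c a N p : ℕ} (hp : p.Prime) (hb : 2 ≤ b) (hbp : ∀ c : ℕ, c ^ p ≠ b)
    (ha : 0 < a) (h : c ^ a = b ^ N) : p ^ a.factorization p ∣ N := by
  by_contra hcon
  -- `p` divides all exponents of `b`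
  have hc0 : c ≠ 0 := by
    rintro rfl
    rw [zero_pow ha.ne'] at h
    exact (pow_pos (by omega : 0 < b) N).ne h
  have hfac : ∀ q, a * c.factorization q = N * b.factorization q := by
    intro q
    have h1 := congrArg (fun n => n.factorization q) h
    simpa [Nat.factorization_pow] using h1
  have hN0 : N ≠ 0 := by
    rintro rfl
    exact hcon (dvd_zero _)
  have hdiv : ∀ q, p ∣ b.factorization q := by
    intro q
    by_cases h0 : b.factorization q = 0
    · rw [h0]; exact dvd_zero _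
    have h1 := hfac q
    have h2 : c.factorization q ≠ 0 := by
      intro h3
      rw [h3, mul_zero] at h1
      exact (mul_ne_zero hN0 h0) h1.symm
    have h3 := congrArg (fun n => n.factorization p) h1
    simp only [Nat.factorization_mul ha.ne' h2, Nat.factorization_mul hN0 h0, Finsupp.add_apply] at h3
    have h4 : N.factorization p < a.factorization p := by
      by_contra h5
      push Not at h5
      exact hcon ((hp.pow_dvd_iff_le_factorization hN0).2 h5)
    have h5 : 1 ≤ (b.factorization q).factorization p := by omega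
    have h6 := (hp.pow_dvd_iff_le_factorization h0).2 h5
    simpa using h6
  apply hbp (b.primeFactors.prod fun q => q ^ (b.factorization q / p))
  rw [← Finset.prod_pow]
  conv_rhs => rw [← Nat.prod_factorization_pow_eq_self (by omega : b ≠ 0)]
  rw [Finsupp.prod]
  refine Finset.prod_congr (by simp) fun q _ => ?_
  rw [← pow_mul, Nat.div_mul_cancel (hdiv q)]

/-- a rational number with an integral power is an integer -/
lemma exists_nat_of_pow {ν : ℚ} {a N : ℕ} (ha : 0 < a) (h : |ν| ^ a = (N : ℚ)) :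
    ∃ c : ℕ, c ^ a = N := by
  have h1 : IsIntegral ℤ (|ν|) := by
    refine IsIntegral.of_pow ha ?_
    rw [h]
    exact_mod_cast isIntegral_algebraMap (R := ℤ) (A := ℚ) (x := (N : ℤ))
  obtain ⟨y, hy⟩ := IsIntegrallyClosed.isIntegral_iff.1 h1
  have hy' : (y : ℚ) = |ν| := by simpa using hy
  have hy0 : 0 ≤ y := by
    have : (0 : ℚ) ≤ y := by rw [hy']; exact abs_nonneg _
    exact_mod_cast this
  obtain ⟨c, rfl⟩ := Int.eq_ofNat_of_zero_le hy0
  refine ⟨c, ?_⟩
  rw [← hy'] at h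
  exact_mod_cast h


lemma prim_of_neg_one {E : Type*} [Field E] [CharZero E] {η : E} {e : ℕ} (h : η ^ (2 ^ e) = -1) :
    IsPrimitiveRoot η (2 ^ (e + 1)) := by
  have h1 : η ^ (2 ^ (e + 1)) = 1 := by
    rw [pow_succ, pow_mul, h]; ring
  have h2 : η ^ (2 ^ e) ≠ 1 := by
    rw [h]
    intro h3
    have h4 : (2 : E) = 0 := by linear_combination -h3
    exact two_ne_zero h4
  have h3 : orderOf η = 2 ^ (e + 1) := orderOf_eq_prime_pow h2 h1
  rw [← h3]
  exact IsPrimitiveRoot.orderOf η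

/-- the degree of a field containing an `a`-th root of `-b ^ (2 ^ m)` -/
lemma dvd_finrank {E : Type*} [Field E] [Algebra ℚ E] [FiniteDimensional ℚ E] {b a m : ℕ}
    (hb : 2 ≤ b) (hodd : ∀ p : ℕ, p.Prime → p ≠ 2 → ∀ c : ℕ, c ^ p ≠ b)
    (ha : 0 < a) (hm : a.factorization 2 ≤ m) (θ : E) (hθ : θ ^ a = -(b : E) ^ (2 ^ m)) :
    a ∣ Module.finrank ℚ E := by
  have hch : CharZero E := algebraRat.charZero E
  have hb0 : (b : E) ≠ 0 := by exact_mod_cast (by omega : b ≠ 0)
  have hg0 : Module.finrank ℚ E ≠ 0 := Module.finrank_pos.ne'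
  obtain ⟨e, he⟩ : ∃ e, e = a.factorization 2 := ⟨_, rfl⟩
  rw [← he] at hm
  obtain ⟨a1, ha1⟩ : 2 ^ e ∣ a := by rw [he]; exact Nat.ordProj_dvd a 2
  -- the root of unity
  obtain ⟨η, hη⟩ : ∃ η : E, η = θ ^ a1 / (b : E) ^ (2 ^ (m - e)) := ⟨_, rfl⟩
  have hη1 : η ^ (2 ^ e) = -1 := by
    rw [hη, div_pow, ← pow_mul, ← pow_mul, ← pow_add, Nat.sub_add_cancel hm, mul_comm a1, ← ha1, hθ]
    rw [neg_div, div_self (pow_ne_zero _ hb0)]
  have hprim := prim_of_neg_one hη1
  have h2e : 2 ^ e ∣ Module.finrank ℚ E := by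
    have h3 : (minpoly ℚ η).natDegree = 2 ^ e := by
      have h4 : aeval η (cyclotomic (2 ^ (e + 1)) ℚ) = 0 := by
        have h5 := hprim.isRoot_cyclotomic (by positivity)
        rw [IsRoot.def, ← map_cyclotomic (2 ^ (e + 1)) (algebraMap ℚ E), eval_map_algebraMap] at h5
        exact h5
      rw [← minpoly.eq_of_irreducible_of_monic (cyclotomic.irreducible_rat (by positivity)) h4
        (cyclotomic.monic _ _), natDegree_cyclotomic,
        Nat.totient_prime_pow Nat.prime_two (Nat.succ_pos e)]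
      simp
    rw [← h3]
    exact minpoly.degree_dvd (IsIntegral.of_finite ℚ η)
  -- the norm
  have hnorm : |Algebra.norm ℚ θ| ^ a = ((b ^ (2 ^ m * Module.finrank ℚ E) : ℕ) : ℚ) := by
    have h1 : Algebra.norm ℚ (θ ^ a) = (-(b : ℚ) ^ (2 ^ m)) ^ Module.finrank ℚ E := by
      rw [hθ, ← Algebra.norm_algebraMap]
      congr 1
      simp
    rw [map_pow] at h1
    rw [← abs_pow, h1, abs_pow, abs_neg, abs_of_nonneg (by positivity), ← pow_mul]
    push_cast
    rfl
  obtain ⟨c, hc⟩ := exists_nat_of_pow ha hnorm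
  rw [← Nat.factorization_le_iff_dvd ha.ne' hg0]
  intro p
  by_cases hp : p.Prime
  · rw [← hp.pow_dvd_iff_le_factorization hg0]
    by_cases hp2 : p = 2
    · rw [hp2, ← he]; exact h2e
    · have h1 := pow_dvd_of_pow_eq hp hb (hodd p hp hp2) ha hc
      refine (Nat.Coprime.dvd_of_dvd_mul_left ?_ h1)
      apply Nat.Coprime.pow
      rw [Nat.coprime_primes hp Nat.prime_two]
      exact hp2
  · rw [Nat.factorization_eq_zero_of_not_prime _ hp]
    exact Nat.zero_le _

/-- **Irreducibility.** -/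
theorem irr {b a m : ℕ} (hb : 2 ≤ b) (hodd : ∀ p : ℕ, p.Prime → p ≠ 2 → ∀ c : ℕ, c ^ p ≠ b)
    (ha : 0 < a) (hm : a.factorization 2 ≤ m) :
    Irreducible (X ^ a + C ((b : ℚ) ^ (2 ^ m)) : ℚ[X]) := by
  obtain ⟨P, hP⟩ : ∃ P : ℚ[X], P = X ^ a + C ((b : ℚ) ^ (2 ^ m)) := ⟨_, rfl⟩
  have hPd : P.natDegree = a := by rw [hP]; exact natDegree_X_pow_add_C
  have hPm : P.Monic := by rw [hP]; exact monic_X_pow_add_C _ ha.ne'
  have hP1 : ¬ IsUnit P := by
    intro h
    have := natDegree_eq_zero_of_isUnit h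
    omega
  rw [← hP]
  obtain ⟨g, hg, hgP⟩ := WfDvdMonoid.exists_irreducible_factor hP1 hPm.ne_zero
  have hgf : Fact (Irreducible g) := ⟨hg⟩
  have hθP : (AdjoinRoot.root g) ^ a = - ((b : ℕ) : AdjoinRoot g) ^ (2 ^ m) := by
    obtain ⟨q, hq⟩ := hgP
    have h1 : eval₂ (AdjoinRoot.of g) (AdjoinRoot.root g) P = 0 := by
      rw [hq, eval₂_mul, AdjoinRoot.eval₂_root, zero_mul]
    rw [hP] at h1
    simp only [eval₂_add, eval₂_pow, eval₂_X, eval₂_natCast, map_pow, map_natCast] at h1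
    linear_combination h1
  have hfin : Module.Finite ℚ (AdjoinRoot g) := (AdjoinRoot.powerBasis hg.ne_zero).finite
  have hn : Module.finrank ℚ (AdjoinRoot g) = g.natDegree := by
    rw [(AdjoinRoot.powerBasis hg.ne_zero).finrank, AdjoinRoot.powerBasis_dim]
  have hdvd : a ∣ g.natDegree := by
    rw [← hn]
    exact dvd_finrank hb hodd ha hm _ hθP
  have hle : g.natDegree ≤ a := by
    rw [← hPd]
    exact natDegree_le_of_dvd hgP hPm.ne_zero
  have heq : g.natDegree = a := le_antisymm hle (Nat.le_of_dvd hg.natDegree_pos hdvd)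
  obtain ⟨q, hq⟩ := hgP
  have hq0 : q ≠ 0 := by
    rintro rfl
    rw [mul_zero] at hq
    exact hPm.ne_zero hq
  have hqd : q.natDegree = 0 := by
    have h1 := congrArg natDegree hq
    rw [natDegree_mul hg.ne_zero hq0, hPd] at h1
    omega
  have hqu : IsUnit q := by
    rw [natDegree_eq_zero] at hqd
    obtain ⟨x, rfl⟩ := hqd
    exact isUnit_C.2 (isUnit_iff_ne_zero.2 (by rintro rfl; simp at hq0))
  rw [hq]
  exact (irreducible_mul_isUnit hqu).2 hg

/-- the same with `T x` instead of the inverse of the variable -/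
theorem irr2 {b a m : ℕ} (hb : 2 ≤ b) (hodd : ∀ p : ℕ, p.Prime → p ≠ 2 → ∀ c : ℕ, c ^ p ≠ b)
    (ha : 0 < a) (hm : a.factorization 2 ≤ m) {τ : ℚ} (hτ : τ ≠ 0) :
    Irreducible (C ((b : ℚ) ^ (2 ^ m) / τ ^ a) * X ^ a + 1 : ℚ[X]) := by
  have hb0 : (b : ℚ) ≠ 0 := by exact_mod_cast (by omega : b ≠ 0)
  obtain ⟨κ, hκ⟩ : ∃ κ : ℚ, κ = (b : ℚ) ^ (2 ^ m) / τ ^ a := ⟨_, rfl⟩
  have hκ0 : κ ≠ 0 := by
    rw [hκ]
    exact div_ne_zero (pow_ne_zero _ hb0) (pow_ne_zero _ hτ)
  obtain ⟨P, hP⟩ : ∃ P : ℚ[X], P = C κ * X ^ a + 1 := ⟨_, rfl⟩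
  have hPd : P.natDegree = a := by
    rw [hP, ← C_1]
    rw [natDegree_add_C]
    exact natDegree_C_mul_X_pow a κ hκ0
  have hP0 : P ≠ 0 := by
    intro h
    rw [h, natDegree_zero] at hPd
    omega
  have hP1 : ¬ IsUnit P := by
    intro h
    have := natDegree_eq_zero_of_isUnit h
    omega
  rw [← hκ, ← hP]
  obtain ⟨g, hg, hgP⟩ := WfDvdMonoid.exists_irreducible_factor hP1 hP0
  have hgf : Fact (Irreducible g) := ⟨hg⟩
  have hch : CharZero (AdjoinRoot g) := algebraRat.charZero _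
  have hinj : Function.Injective (AdjoinRoot.of g) := (AdjoinRoot.of g).injective
  have hroot : AdjoinRoot.of g κ * (AdjoinRoot.root g) ^ a = -1 := by
    obtain ⟨q, hq⟩ := hgP
    have h1 : eval₂ (AdjoinRoot.of g) (AdjoinRoot.root g) P = 0 := by
      rw [hq, eval₂_mul, AdjoinRoot.eval₂_root, zero_mul]
    rw [hP] at h1
    simp only [eval₂_add, eval₂_mul, eval₂_pow, eval₂_X, eval₂_C, eval₂_one] at h1
    linear_combination h1
  have hr0 : AdjoinRoot.root g ≠ 0 := by
    intro h0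
    rw [h0, zero_pow ha.ne', mul_zero] at hroot
    exact one_ne_zero (neg_eq_zero.1 hroot.symm)
  have hθP : (AdjoinRoot.of g τ / AdjoinRoot.root g) ^ a =
      - ((b : ℕ) : AdjoinRoot g) ^ (2 ^ m) := by
    have h2 : AdjoinRoot.of g κ * AdjoinRoot.of g τ ^ a = ((b : ℕ) : AdjoinRoot g) ^ (2 ^ m) := by
      rw [← map_pow, ← map_mul, hκ, div_mul_cancel₀ _ (pow_ne_zero _ hτ), map_pow, map_natCast]
    rw [div_pow, ← h2, div_eq_iff (pow_ne_zero _ hr0)]
    linear_combination (AdjoinRoot.of g τ ^ a) * hroot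
  have hfin : Module.Finite ℚ (AdjoinRoot g) := (AdjoinRoot.powerBasis hg.ne_zero).finite
  have hn : Module.finrank ℚ (AdjoinRoot g) = g.natDegree := by
    rw [(AdjoinRoot.powerBasis hg.ne_zero).finrank, AdjoinRoot.powerBasis_dim]
  have hdvd : a ∣ g.natDegree := by
    rw [← hn]
    exact dvd_finrank hb hodd ha hm _ hθP
  have hle : g.natDegree ≤ a := by
    rw [← hPd]
    exact natDegree_le_of_dvd hgP hP0
  have heq : g.natDegree = a := le_antisymm hle (Nat.le_of_dvd hg.natDegree_pos hdvd)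
  obtain ⟨q, hq⟩ := hgP
  have hq0 : q ≠ 0 := by
    rintro rfl
    rw [mul_zero] at hq
    exact hP0 hq
  have hqd : q.natDegree = 0 := by
    have h1 := congrArg natDegree hq
    rw [natDegree_mul hg.ne_zero hq0, hPd] at h1
    omega
  have hqu : IsUnit q := by
    rw [natDegree_eq_zero] at hqd
    obtain ⟨x, rfl⟩ := hqd
    exact isUnit_C.2 (isUnit_iff_ne_zero.2 (by rintro rfl; simp at hq0))
  rw [hq]
  exact (irreducible_mul_isUnit hqu).2 hg

end Pool.Agent.H95.EB
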