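import Mathlib
import Pool.Graph.R_seed8.TH551.SU.WT
import Pool.Graph.R_seed8.TH551.SU.Ht
import Pool.Graph.R_seed8.TH551.SU.CRV
import Pool.Graph.R_seed8.TH551.SU.Sui
import Pool.Graph.R_seed8.Y724.Vj.Gcd2

/-!
# Multiplicatively independent parameters for finitely many unit germs
-/

set_option autoImplicit false

namespace Pool.Agent.H95.EB

open Filter Topology Pool.Agent.TH932.Germs Pool.Agent.TH551.SU Pool.Agent.TH551.SU.WT
open Pool.Agent.Y724.Vj MvPolynomial

variable {L : ℕ → ℝ}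

/-! ## bounded germs -/

lemma Bd.mul' {g h : GG} (hg : Bd L g) (hh : Bd L h) : Bd L (g * h) := by
  obtain ⟨m, d, A, h1, h2, h3, rfl⟩ := hg
  obtain ⟨m', d', A', h1', h2', h3', rfl⟩ := hh
  refine ⟨fun n => m n * m' n, fun n => d n * d' n, A + A', ?_, ?_, ?_, ?_⟩
  · filter_upwards [h1, h1'] with n h h'
    push_cast
    rw [abs_mul, add_mul, Real.exp_add]
    gcongr
  · filter_upwards [h2, h2'] with n h h'
    push_cast
    rw [abs_mul, add_mul, Real.exp_add]
    gcongr
  · filter_upwards [h3, h3'] with n h h' using mul_ne_zero h h'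
  · rw [gm_mul]
    congr 1
    funext n
    push_cast
    rw [div_mul_div_comm]

lemma Bd.one' (hL : Tendsto L atTop atTop) : Bd L (1 : GG) := by
  refine ⟨fun _ => 1, fun _ => 1, 0, ?_, ?_, ?_, ?_⟩
  · exact Eventually.of_forall fun n => by simp
  · exact Eventually.of_forall fun n => by simp
  · exact Eventually.of_forall fun n => by simp
  · rw [← gm_one]
    congr 1
    funext n
    simp

lemma Bd.inv' {g : GG} (hg : Bd L g) (h0 : g ≠ 0) : Bd L g⁻¹ := by
  obtain ⟨m, d, A, h1, h2, h3, rfl⟩ := hg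
  refine ⟨d, m, A, h2, h1, ?_, ?_⟩
  · filter_upwards [gm_ne_zero.1 h0] with n hn h
    apply hn
    rw [h]
    simp
  · rw [gm_inv]
    congr 1
    funext n
    rw [inv_div]

lemma Bd.pow' (hL : Tendsto L atTop atTop) {g : GG} (hg : Bd L g) (k : ℕ) : Bd L (g ^ k) := by
  induction k with
  | zero => rw [pow_zero]; exact Bd.one' hL
  | succ k ih => rw [pow_succ]; exact Bd.mul' ih hg

lemma Bd.zpow' (hL : Tendsto L atTop atTop) {g : GG} (hg : Bd L g) (h0 : g ≠ 0) (k : ℤ) :
    Bd L (g ^ k) := by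
  cases k with
  | ofNat k => rw [Int.ofNat_eq_natCast, zpow_natCast]; exact Bd.pow' hL hg k
  | negSucc k => rw [zpow_negSucc]; exact Bd.inv' (Bd.pow' hL hg _) (pow_ne_zero _ h0)

lemma Bd.mon' (hL : Tendsto L atTop atTop) {r : ℕ} {u : Fin r → GG} (hu : ∀ j, Bd L (u j))
    (h0 : ∀ j, u j ≠ 0) (z : Fin r → ℤ) : Bd L (mon u z) := by
  unfold mon
  refine Finset.prod_induction _ (fun g => Bd L g) (fun _ _ => Bd.mul') (Bd.one' hL) ?_
  intro j _
  exact Bd.zpow' hL (hu j) (h0 j) _

/-! ## unit sequences -/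

variable {s : ℕ} {b : Fin s → ℕ}

lemma su_one : IsSU b 1 := ⟨1, fun _ => 0, Or.inl rfl, by simp⟩

lemma su_mul (hb : ∀ v, (b v).Prime) {x y : ℚ} (hx : IsSU b x) (hy : IsSU b y) :
    IsSU b (x * y) := by
  obtain ⟨σ, e, hσ, rfl⟩ := hx
  obtain ⟨τ, f, hτ, rfl⟩ := hy
  refine ⟨σ * τ, fun v => e v + f v, ?_, ?_⟩
  · rcases hσ with rfl | rfl <;> rcases hτ with rfl | rfl <;> simp
  · push_cast
    have h1 : (∏ v, (b v : ℚ) ^ (e v + f v)) = (∏ v, (b v : ℚ) ^ e v) * ∏ v, (b v : ℚ) ^ f v := by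
      rw [← Finset.prod_mul_distrib]
      exact Finset.prod_congr rfl fun v _ =>
        zpow_add₀ (by exact_mod_cast (hb v).ne_zero) _ _
    rw [h1]
    ring

lemma su_zpow (hb : ∀ v, (b v).Prime) {x : ℚ} (hx : IsSU b x) (k : ℤ) : IsSU b (x ^ k) := by
  have hb0 : ∀ v, b v ≠ 0 := fun v => (hb v).ne_zero
  have hpow : ∀ k : ℕ, IsSU b (x ^ k) := by
    intro k
    induction k with
    | zero => rw [pow_zero]; exact su_one
    | succ k ih => rw [pow_succ]; exact su_mul hb ih hx
  cases k with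
  | ofNat k => rw [Int.ofNat_eq_natCast, zpow_natCast]; exact hpow k
  | negSucc k =>
    rw [zpow_negSucc]
    obtain ⟨σ, e, hσ, he⟩ := hpow (k + 1)
    refine ⟨σ, fun v => - e v, hσ, ?_⟩
    rw [he, mul_inv, ← Finset.prod_inv_distrib]
    congr 1
    · rcases hσ with rfl | rfl <;> norm_num
    · exact Finset.prod_congr rfl fun v _ => (zpow_neg _ _).symm

/-- the sequence of a monomial -/
noncomputable def mseq {r : ℕ} (g : Fin r → ℕ → ℚ) (z : Fin r → ℤ) (n : ℕ) : ℚ :=
  ∏ i, (g i n) ^ (z i)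

lemma mseq_su (hb : ∀ v, (b v).Prime) {r : ℕ} {g : Fin r → ℕ → ℚ} (hg : ∀ i n, IsSU b (g i n))
    (z : Fin r → ℤ) (n : ℕ) : IsSU b (mseq g z n) := by
  unfold mseq
  refine Finset.prod_induction _ (fun x => IsSU b x) (fun _ _ h h' => su_mul hb h h') su_one ?_
  intro i _
  exact su_zpow hb (hg i n) _

lemma gm_zpow' (a : ℕ → ℚ) (k : ℤ) : (gm a) ^ k = gm (fun n => a n ^ k) := rfl

lemma gm_mseq {r : ℕ} (g : Fin r → ℕ → ℚ) (z : Fin r → ℤ) :
    gm (mseq g z) = mon (fun i => gm (g i)) z := by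
  unfold mon
  have h : ∀ S : Finset (Fin r), gm (fun n => ∏ i ∈ S, (g i n) ^ (z i)) =
      ∏ i ∈ S, gm (g i) ^ (z i) := by
    intro S
    classical
    induction S using Finset.induction_on with
    | empty => rw [Finset.prod_empty, ← gm_one]; congr 1
    | insert i S hi ih =>
      rw [Finset.prod_insert hi, ← ih, gm_zpow', gm_mul]
      congr 1
      funext n
      rw [Finset.prod_insert hi]
  exact h Finset.univ

/-! ## the lattice of relations -/

section lattice
variable {r : ℕ} (u : Fin r → GG)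

/-- the relations -/
noncomputable def Rel (hL : Tendsto L atTop atTop) (hu : ∀ j, u j ≠ 0) :
    Submodule ℤ (Fin r → ℤ) where
  carrier := {z | mon u z ∈ KK L hL}
  zero_mem' := by
    have : mon u (0 : Fin r → ℤ) = 1 := by simp [mon]
    show mon u 0 ∈ KK L hL
    rw [this]
    exact (KK L hL).one_mem
  add_mem' := by
    intro z z' hz hz'
    show mon u (fun j => z j + z' j) ∈ KK L hL
    rw [mon_add hu]
    exact (KK L hL).mul_mem hz hz'
  smul_mem' := by
    intro k z hz
    show mon u (fun j => k * z j) ∈ KK L hL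
    rw [mon_mul]
    exact (KK L hL).zpow_mem hz k

lemma mem_Rel {hL : Tendsto L atTop atTop} {hu : ∀ j, u j ≠ 0} {z : Fin r → ℤ} :
    z ∈ Rel u hL hu ↔ mon u z ∈ KK L hL := Iff.rfl

lemma Rel_tf (hL : Tendsto L atTop atTop) (hu : ∀ j, u j ≠ 0) :
    Module.IsTorsionFree ℤ ((Fin r → ℤ) ⧸ Rel u hL hu) := by
  refine Module.IsTorsionFree.of_smul_eq_zero fun k m hkm => ?_
  by_cases hk : k = 0
  · exact Or.inl hk
  right
  obtain ⟨z, rfl⟩ := Submodule.mkQ_surjective _ m
  rw [← map_smul, Submodule.mkQ_apply, Submodule.Quotient.mk_eq_zero] at hkm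
  rw [Submodule.mkQ_apply, Submodule.Quotient.mk_eq_zero]
  have h1 : mon u (fun j => k * z j) ∈ KK L hL := hkm
  rw [mon_mul] at h1
  show mon u z ∈ KK L hL
  rcases Int.natAbs_eq k with h2 | h2
  · rw [h2, zpow_natCast] at h1
    exact root_mem hL _ _ (Int.natAbs_ne_zero.2 hk) h1
  · rw [h2, zpow_neg, zpow_natCast] at h1
    have h3 := (KK L hL).inv_mem h1
    rw [inv_inv] at h3
    exact root_mem hL _ _ (Int.natAbs_ne_zero.2 hk) h3

end lattice

/-- a nonzero element of a free `ℤ`-module of finite rank is a positive multiple of an element of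
a basis -/
lemma exists_basis {M : Type} [AddCommGroup M] [Module.Free ℤ M] [Module.Finite ℤ M] (q : M)
    (hq : q ≠ 0) : ∃ (m : ℕ) (B : Module.Basis (Fin m) ℤ M) (j0 : Fin m) (a : ℕ), 0 < a ∧
      q = (a : ℤ) • B j0 := by
  classical
  obtain ⟨n, S⟩ := Submodule.smithNormalForm (Module.finBasis ℤ M) (Submodule.span ℤ {q})
  have hqN : q ∈ Submodule.span ℤ {q} := Submodule.mem_span_singleton_self q
  have hcoef : ∀ i, ∃ d : ℤ, d • q = (S.bN i : M) := fun i =>
    Submodule.mem_span_singleton.1 (S.bN i).2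
  -- `q` is a multiple of the unique element of the basis
  have hn0 : Nonempty (Fin n) := by
    by_contra hne
    rw [not_nonempty_iff] at hne
    have h1 := S.bN.sum_repr ⟨q, hqN⟩
    rw [Finset.univ_eq_empty, Finset.sum_empty] at h1
    exact hq (congrArg Subtype.val h1).symm
  obtain ⟨i0⟩ := hn0
  have huniq : ∀ i, i = i0 := by
    intro i
    by_contra hi
    obtain ⟨d, hd⟩ := hcoef i
    obtain ⟨d0, hd0⟩ := hcoef i0
    have h1 : d0 • S.bN i - d • S.bN i0 = 0 := by
      apply Subtype.ext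
      simp only [Submodule.coe_sub, Submodule.coe_smul, ← hd, ← hd0, Submodule.coe_zero]
      rw [smul_smul, smul_smul, mul_comm, sub_self]
    have h2 := (Fintype.linearIndependent_iff.1 S.bN.linearIndependent)
      (fun j => if j = i then d0 else if j = i0 then -d else 0) (by
        rw [← h1]
        simp only [ite_smul, zero_smul]
        rw [← Finset.add_sum_erase _ _ (Finset.mem_univ i), if_pos rfl,
          ← Finset.add_sum_erase _ _ (Finset.mem_erase.2 ⟨Ne.symm hi, Finset.mem_univ i0⟩),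
          if_neg (Ne.symm hi), if_pos rfl, Finset.sum_eq_zero, neg_smul, add_zero, sub_eq_add_neg]
        intro j hj
        rw [Finset.mem_erase, Finset.mem_erase] at hj
        rw [if_neg hj.2.1, if_neg hj.1]) i
    rw [if_pos rfl] at h2
    rw [h2, zero_smul] at hd0
    exact S.bN.ne_zero i0 (Subtype.ext hd0.symm)
  have h1 := S.bN.sum_repr ⟨q, hqN⟩
  rw [Finset.sum_eq_single i0 (fun i _ h => absurd (huniq i) h)
    (fun h => absurd (Finset.mem_univ _) h)] at h1
  have h2 := congrArg Subtype.val h1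
  simp only [Submodule.coe_smul] at h2
  rw [S.snf i0, smul_smul] at h2
  set A := S.bN.repr ⟨q, hqN⟩ i0 * S.a i0 with hA
  have hA0 : A ≠ 0 := by
    intro h0
    rw [h0, zero_smul] at h2
    exact hq h2.symm
  rcases lt_or_gt_of_ne hA0 with hneg | hpos
  · refine ⟨_, S.bM.unitsSMul (fun _ => -1), S.f i0, A.natAbs, Int.natAbs_pos.2 hA0, ?_⟩
    refine h2.symm.trans ?_
    rw [Module.Basis.unitsSMul_apply, Units.smul_def, smul_smul]
    congr 1
    have h4 : ((A.natAbs : ℕ) : ℤ) = -A := by omega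
    rw [h4]
    simp
  · refine ⟨_, S.bM, S.f i0, A.natAbs, Int.natAbs_pos.2 hA0, ?_⟩
    refine h2.symm.trans ?_
    congr 1
    omega

/-- **Parameters.** Finitely many unit germs, the first of which is not negligible, are negligible
multiples of monomials in multiplicatively independent unit germs, the first one being a negligible
multiple of a power of one of the parameters. -/
theorem exists_param (hb : ∀ v, (b v).Prime) (hL : Tendsto L atTop atTop) {k : ℕ}
    (g : Fin (k + 1) → ℕ → ℚ) (hg : ∀ i n, IsSU b (g i n)) (hB : ∀ i, Bd L (gm (g i)))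
    (h0 : gm (g 0) ∉ KK L hL) :
    ∃ (m : ℕ) (T : Fin m → ℕ → ℚ) (j0 : Fin m) (a : ℕ) (A : Fin (k + 1) → Fin m → ℤ),
      (∀ j n, IsSU b (T j n)) ∧ (∀ j, Bd L (gm (T j))) ∧ 0 < a ∧
      gm (g 0) / gm (T j0) ^ a ∈ KK L hL ∧
      (∀ i, gm (g i) / mon (fun j => gm (T j)) (A i) ∈ KK L hL) ∧
      (∀ z : Fin m → ℤ, mon (fun j => gm (T j)) z ∈ KK L hL → z = 0) := by
  classical
  obtain ⟨u, hu⟩ : ∃ u : Fin (k + 1) → GG, u = fun i => gm (g i) := ⟨_, rfl⟩
  have hu0 : ∀ i, u i ≠ 0 := fun i => by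
    rw [hu]
    exact gsu_ne_zero hb ⟨g i, rfl, hg i⟩
  have htf := Rel_tf u hL hu0
  obtain ⟨q, hq⟩ : ∃ q : (Fin (k + 1) → ℤ) ⧸ Rel u hL hu0,
    q = (Rel u hL hu0).mkQ (fun i => if i = 0 then 1 else 0) := ⟨_, rfl⟩
  have hq0 : q ≠ 0 := by
    rw [hq, Submodule.mkQ_apply, Ne, Submodule.Quotient.mk_eq_zero, mem_Rel, mon_single, hu]
    exact h0
  obtain ⟨m, B, j0, a, ha, hqa⟩ := exists_basis q hq0
  choose z hz using fun j => Submodule.mkQ_surjective (Rel u hL hu0) (B j)
  -- the exponents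
  obtain ⟨A, hA⟩ : ∃ A : Fin (k + 1) → Fin m → ℤ, A = fun i j =>
    B.repr ((Rel u hL hu0).mkQ (fun i' => if i' = i then 1 else 0)) j := ⟨_, rfl⟩
  have hmonT : ∀ w : Fin m → ℤ, mon (fun j => gm (mseq g (z j))) w =
      mon u (fun i => ∑ j, w j * z j i) := by
    intro w
    simp only [gm_mseq, ← hu]
    unfold mon
    have h1 : ∀ j, (∏ i, u i ^ (z j i)) ^ (w j) = ∏ i, u i ^ (w j * z j i) := by
      intro j
      rw [← Finset.prod_zpow]
      refine Finset.prod_congr rfl fun i _ => ?_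
      rw [← zpow_mul, mul_comm]
    simp only [h1]
    rw [Finset.prod_comm]
    refine Finset.prod_congr rfl fun i _ => ?_
    have h2 : ∀ S : Finset (Fin m), ∏ j ∈ S, u i ^ (w j * z j i) = u i ^ (∑ j ∈ S, w j * z j i) := by
      intro S
      induction S using Finset.induction_on with
      | empty => simp
      | insert j S hj ih => rw [Finset.prod_insert hj, Finset.sum_insert hj, zpow_add₀ (hu0 i), ih]
    exact h2 _
  have hquot : ∀ x y : Fin (k + 1) → ℤ, (Rel u hL hu0).mkQ x = (Rel u hL hu0).mkQ y →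
      mon u x / mon u y ∈ KK L hL := by
    intro x y hxy
    rw [Submodule.mkQ_apply, Submodule.mkQ_apply, Submodule.Quotient.eq] at hxy
    rw [← mon_sub hu0]
    exact hxy
  have hmk : ∀ w : Fin m → ℤ, (Rel u hL hu0).mkQ (fun i => ∑ j, w j * z j i) = ∑ j, w j • B j := by
    intro w
    have h1 : (fun i => ∑ j, w j * z j i) = ∑ j, w j • z j := by
      funext i
      rw [Finset.sum_apply]
      rfl
    rw [h1, map_sum]
    refine Finset.sum_congr rfl fun j _ => ?_
    rw [map_smul, hz]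
  refine ⟨m, fun j => mseq g (z j), j0, a, A, fun j n => mseq_su hb hg _ n, ?_, ha, ?_, ?_, ?_⟩
  · intro j
    rw [gm_mseq]
    exact Bd.mon' hL hB (by simpa [hu] using hu0) _
  · -- the first germ
    have h1 : gm (mseq g (z j0)) ^ a = mon u (fun i => (a : ℤ) * z j0 i) := by
      rw [gm_mseq, ← hu, mon_mul, zpow_natCast]
    have h2 : gm (g 0) = mon u (fun i => if i = 0 then 1 else 0) := by
      rw [mon_single, hu]
    rw [h1, h2]
    apply hquot
    rw [← hq, hqa]
    have h3 : (fun i => (a : ℤ) * z j0 i) = (a : ℤ) • z j0 := by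
      funext i
      rfl
    rw [h3, map_smul, hz]
  · intro i
    rw [hmonT]
    have h2 : gm (g i) = mon u (fun i' => if i' = i then 1 else 0) := by
      rw [mon_single, hu]
    rw [h2]
    apply hquot
    rw [hmk, hA]
    exact (B.sum_repr _).symm
  · intro w hw
    rw [hmonT, ← mem_Rel u (hL := hL) (hu := hu0), ← Submodule.Quotient.mk_eq_zero,
      ← Submodule.mkQ_apply, hmk] at hw
    funext j
    exact (Fintype.linearIndependent_iff.1 B.linearIndependent) w hw j

/-- multiplicatively independent unit germs are algebraically independent -/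
theorem alg_ind (hb : ∀ v, (b v).Prime) (hbi : Function.Injective b)
    (hL : Tendsto L atTop atTop) {m : ℕ} (T : Fin m → ℕ → ℚ) (hT : ∀ j n, IsSU b (T j n))
    (hi : ∀ z : Fin m → ℤ, mon (fun j => gm (T j)) z ∈ KK L hL → z = 0)
    (p : MvPolynomial (Fin m) (KK L hL)) (hp : aeval (fun k => gm (T k)) p = 0) : p = 0 := by
  classical
  have hT0 : ∀ j, gm (T j) ≠ 0 := fun j => gsu_ne_zero hb ⟨T j, rfl, hT j⟩
  obtain ⟨N, e⟩ : ∃ N : ℕ, Nonempty (Fin N ≃ p.support) := ⟨_, ⟨p.support.equivFin.symm⟩⟩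
  obtain ⟨e⟩ := e
  obtain ⟨U, hU⟩ : ∃ U : Fin N → GG, U = fun i => mon (fun j => gm (T j)) (fun j => ((e i).1 j : ℤ)) :=
    ⟨_, rfl⟩
  have h1 : ∀ i, GSU b (U i) := fun i => by
    rw [hU]
    simp only
    rw [← gm_mseq]
    exact ⟨_, rfl, fun n => mseq_su hb hT _ n⟩
  have h2 : ∀ i i', i ≠ i' → U i / U i' ∉ KK L hL := by
    intro i i' hii h3
    rw [hU] at h3
    simp only at h3
    rw [← mon_sub hT0] at h3
    have h4 := hi _ h3
    apply hii
    apply e.injective
    apply Subtype.ext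
    ext j
    have h5 := congrFun h4 j
    simp only [Pi.zero_apply] at h5
    omega
  have h3 : ∑ i, ((coeff (e i).1 p : KK L hL) : GG) * U i = 0 := by
    rw [← hp, aeval_def, eval₂_eq']
    rw [← Finset.sum_coe_sort p.support, ← e.sum_comp]
    refine Finset.sum_congr rfl fun i _ => ?_
    congr 1
    rw [hU]
    unfold mon
    simp only [zpow_natCast]
  have h4 := SUI.sui s b hb hbi L hL N U h1 h2 _ h3
  by_contra hp0
  obtain ⟨d, hd⟩ := MvPolynomial.support_nonempty.2 hp0
  have h5 := h4 (e.symm ⟨d, hd⟩)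
  rw [e.apply_symm_apply] at h5
  exact (mem_support_iff.1 hd) h5

end Pool.Agent.H95.EB
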