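import Mathlib
import Pool.Agent.H95.EB.Irr
import Pool.Agent.H95.EB.Par

/-!
# The polynomial of `b ^ (2 ^ m) + 1` is prime over the negligible field; integral division
-/

set_option autoImplicit false

namespace Pool.Agent.H95.EB

open Filter Topology Pool.Agent.TH932.Germs Pool.Agent.TH551.SU Pool.Agent.TH551.SU.WT
open Pool.Agent.Y724.Vj

variable {L : ℕ → ℝ}

/-- representatives -/
noncomputable def rp (g : GG) : ℕ → ℚ := (gm_surj g).choose

lemma gm_rp (g : GG) : gm (rp g) = g := (gm_surj g).choose_spec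

/-- representatives of polynomials -/
noncomputable def rpp (P : Polynomial GG) (n : ℕ) : Polynomial ℚ :=
  ∑ i ∈ Finset.range (P.natDegree + 1), Polynomial.monomial i (rp (P.coeff i) n)

lemma coeff_rpp (P : Polynomial GG) (n i : ℕ) :
    (rpp P n).coeff i = if i ≤ P.natDegree then rp (P.coeff i) n else 0 := by
  unfold rpp
  rw [Polynomial.finsetSum_coeff]
  simp only [Polynomial.coeff_monomial]
  rw [Finset.sum_ite_eq' (Finset.range (P.natDegree + 1)) i]
  simp

lemma gm_coeff_rpp (P : Polynomial GG) (i : ℕ) : gm (fun n => (rpp P n).coeff i) = P.coeff i := by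
  simp only [coeff_rpp]
  by_cases h : i ≤ P.natDegree
  · simp only [if_pos h]
    exact gm_rp _
  · simp only [if_neg h]
    rw [gm_zero, Polynomial.coeff_eq_zero_of_natDegree_lt (by omega)]

lemma gm_sum {ι : Type} (S : Finset ι) (f : ι → ℕ → ℚ) :
    gm (fun n => ∑ i ∈ S, f i n) = ∑ i ∈ S, gm (f i) := by
  classical
  induction S using Finset.induction_on with
  | empty => simp only [Finset.sum_empty]; exact gm_zero
  | insert i S hi ih =>
    rw [Finset.sum_insert hi, ← ih, gm_add]
    congr 1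
    funext n
    rw [Finset.sum_insert hi]

/-- products of representatives -/
lemma rpp_mul (P Q : Polynomial GG) (R : ℕ → Polynomial ℚ) (hR : ∀ n, (R n).natDegree ≤ P.natDegree + Q.natDegree)
    (h : ∀ i, gm (fun n => (R n).coeff i) = (P * Q).coeff i) :
    ∀ᶠ n in (UU : Filter ℕ), rpp P n * rpp Q n = R n := by
  have h1 : ∀ i ∈ Finset.range (P.natDegree + Q.natDegree + 1), ∀ᶠ n in (UU : Filter ℕ),
      (rpp P n * rpp Q n).coeff i = (R n).coeff i := by
    intro i _
    rw [← gm_eq, h, Polynomial.coeff_mul]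
    simp only [Polynomial.coeff_mul]
    rw [gm_sum]
    refine Finset.sum_congr rfl fun x _ => ?_
    rw [← gm_coeff_rpp P, ← gm_coeff_rpp Q, gm_mul]
  have hdeg : ∀ (P : Polynomial GG) n, (rpp P n).natDegree ≤ P.natDegree := by
    intro P n
    rw [Polynomial.natDegree_le_iff_coeff_eq_zero]
    intro N hN
    rw [coeff_rpp, if_neg (by omega)]
  filter_upwards [(Filter.eventually_all_finset _).2 h1] with n hn
  ext i
  by_cases hi : i ∈ Finset.range (P.natDegree + Q.natDegree + 1)
  · exact hn i hi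
  · rw [Finset.mem_range, not_lt] at hi
    rw [Polynomial.coeff_eq_zero_of_natDegree_lt (lt_of_le_of_lt (Polynomial.natDegree_mul_le) (by
      have := hdeg P n; have := hdeg Q n; omega)),
      Polynomial.coeff_eq_zero_of_natDegree_lt (lt_of_le_of_lt (hR n) (by omega))]

/-- **Irreducibility over the negligible field.** -/
theorem irrK (hL : Tendsto L atTop atTop) {b a : ℕ} (hb : 2 ≤ b)
    (hodd : ∀ p : ℕ, p.Prime → p ≠ 2 → ∀ c : ℕ, c ^ p ≠ b) (ha : 0 < a) (μ : ℕ → ℕ)
    (hμ : Tendsto μ atTop atTop) (T : ℕ → ℚ) (hT : ∀ n, T n ≠ 0)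
    (κ : KK L hL) (hκ : (κ : GG) = gm (fun n => (b : ℚ) ^ (2 ^ (μ n))) / gm T ^ a) :
    Irreducible (Polynomial.C κ * Polynomial.X ^ a + 1 : Polynomial (KK L hL)) := by
  have hb0 : (b : ℚ) ≠ 0 := by exact_mod_cast (by omega : b ≠ 0)
  have hκ0 : κ ≠ 0 := by
    intro h0
    have h1 : (κ : GG) ≠ 0 := by
      rw [hκ]
      refine div_ne_zero ?_ (pow_ne_zero _ ?_)
      · rw [gm_ne_zero]
        exact Eventually.of_forall fun n => pow_ne_zero _ hb0
      · rw [gm_ne_zero]
        exact Eventually.of_forall hT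
    exact h1 (by rw [h0]; rfl)
  have hdeg : (Polynomial.C κ * Polynomial.X ^ a + 1 : Polynomial (KK L hL)).natDegree = a := by
    rw [← Polynomial.C_1, Polynomial.natDegree_add_C]
    exact Polynomial.natDegree_C_mul_X_pow a κ hκ0
  have hne : (Polynomial.C κ * Polynomial.X ^ a + 1 : Polynomial (KK L hL)) ≠ 0 := by
    intro h
    rw [h, Polynomial.natDegree_zero] at hdeg
    omega
  refine ⟨fun h => ?_, fun P Q hPQ => ?_⟩
  · have := Polynomial.natDegree_eq_zero_of_isUnit h
    omega
  have hP0 : P ≠ 0 := by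
    rintro rfl
    rw [zero_mul] at hPQ
    exact hne hPQ
  have hQ0 : Q ≠ 0 := by
    rintro rfl
    rw [mul_zero] at hPQ
    exact hne hPQ
  -- reduce to degrees
  have hunit : ∀ R : Polynomial (KK L hL), R ≠ 0 → R.natDegree = 0 → IsUnit R := by
    intro R hR0 hR
    rw [Polynomial.natDegree_eq_zero] at hR
    obtain ⟨x, rfl⟩ := hR
    exact Polynomial.isUnit_C.2 (isUnit_iff_ne_zero.2 (by rintro rfl; simp at hR0))
  by_contra hcon
  push Not at hcon
  have hP1 : 1 ≤ P.natDegree := by
    by_contra h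
    exact hcon.1 (hunit P hP0 (by omega))
  have hQ1 : 1 ≤ Q.natDegree := by
    by_contra h
    exact hcon.2 (hunit Q hQ0 (by omega))
  -- pass to germs
  set P' := P.map (algebraMap (KK L hL) GG) with hP'
  set Q' := Q.map (algebraMap (KK L hL) GG) with hQ'
  have hinj : Function.Injective (algebraMap (KK L hL) GG) := (algebraMap (KK L hL) GG).injective
  have hPd : P'.natDegree = P.natDegree := Polynomial.natDegree_map_eq_of_injective hinj P
  have hQd : Q'.natDegree = Q.natDegree := Polynomial.natDegree_map_eq_of_injective hinj Q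
  have hsum : P.natDegree + Q.natDegree = a := by
    rw [← Polynomial.natDegree_mul hP0 hQ0, ← hPQ, hdeg]
  have hPQ' : P' * Q' = Polynomial.C (κ : GG) * Polynomial.X ^ a + 1 := by
    rw [hP', hQ', ← Polynomial.map_mul, ← hPQ]
    simp
    rfl
  have hκs : (κ : GG) = gm (fun n => (b : ℚ) ^ (2 ^ (μ n)) / T n ^ a) := by
    rw [hκ, gm_pow, gm_div]
  have hev := rpp_mul P' Q' (fun n => Polynomial.C ((b : ℚ) ^ (2 ^ (μ n)) / T n ^ a) * Polynomial.X ^ a + 1)
    (by
      intro n
      rw [hPd, hQd, hsum, ← Polynomial.C_1, Polynomial.natDegree_add_C]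
      exact Polynomial.natDegree_C_mul_X_pow_le _ _)
    (by
      intro i
      rw [hPQ']
      simp only [Polynomial.coeff_add, Polynomial.coeff_C_mul, Polynomial.coeff_X_pow,
        Polynomial.coeff_one]
      rw [hκs]
      by_cases h1 : i = a <;> by_cases h2 : i = 0
      · omega
      · simp only [if_pos h1, if_neg h2, mul_one, add_zero]
      · simp only [if_neg h1, if_pos h2, mul_zero, zero_add]
        exact gm_one
      · simp only [if_neg h1, if_neg h2, mul_zero, zero_add]
        exact gm_zero)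
  have hlead : ∀ R : Polynomial GG, R ≠ 0 → ∀ᶠ n in (UU : Filter ℕ),
      (rpp R n).natDegree = R.natDegree := by
    intro R hR
    have h1 : gm (fun n => (rpp R n).coeff R.natDegree) ≠ 0 := by
      rw [gm_coeff_rpp]
      exact Polynomial.leadingCoeff_ne_zero.2 hR
    filter_upwards [gm_ne_zero.1 h1] with n hn
    refine le_antisymm ?_ (Polynomial.le_natDegree_of_ne_zero hn)
    rw [Polynomial.natDegree_le_iff_coeff_eq_zero]
    intro N hN
    rw [coeff_rpp, if_neg (by omega)]
  have hP'0 : P' ≠ 0 := (Polynomial.map_ne_zero_iff hinj).2 hP0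
  have hQ'0 : Q' ≠ 0 := (Polynomial.map_ne_zero_iff hinj).2 hQ0
  obtain ⟨n, h1, h2, h3, h4⟩ := (hev.and ((hlead P' hP'0).and ((hlead Q' hQ'0).and
    (ev_of_atTop (hμ.eventually_ge_atTop (a.factorization 2)))))).exists
  have h5 := irr2 hb hodd ha h4 (hT n)
  rw [← h1] at h5
  rcases h5.isUnit_or_isUnit rfl with h6 | h6
  · have := Polynomial.natDegree_eq_zero_of_isUnit h6
    omega
  · have := Polynomial.natDegree_eq_zero_of_isUnit h6
    omega

end Pool.Agent.H95.EB
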