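import Mathlib
import Pool.Agent.H95.EB.Rp

/-!
# Prime polynomials in several variables; division with integral coefficients
-/

set_option autoImplicit false

namespace Pool.Agent.H95.EB

open Filter Topology Pool.Agent.TH932.Germs Pool.Agent.TH551.SU Pool.Agent.TH551.SU.WT
open Pool.Agent.Y724.Vj MvPolynomial

/-- a prime polynomial in one of several variables is prime -/
theorem prime_toMv {R : Type} [CommRing R] [IsDomain R] {m : ℕ} (j : Fin m) {p : Polynomial R}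
    (hp : Prime p) : Prime (p.toMvPolynomial j) := by
  have h1 : Prime (p.toMvPolynomial (⟨j, rfl⟩ : ({j} : Set (Fin m)))) := by
    have h2 : p.toMvPolynomial (⟨j, rfl⟩ : ({j} : Set (Fin m))) =
        (MvPolynomial.uniqueAlgEquiv R ({j} : Set (Fin m))).symm p := by
      have h3 : (Polynomial.toMvPolynomial (⟨j, rfl⟩ : ({j} : Set (Fin m))) :
          Polynomial R →ₐ[R] MvPolynomial ({j} : Set (Fin m)) R) =
          ((MvPolynomial.uniqueAlgEquiv R ({j} : Set (Fin m))).symm : Polynomial R →ₐ[R] _) := by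
        ext
        simp [MvPolynomial.uniqueAlgEquiv]
      exact DFunLike.congr_fun h3 p
    rw [h2]
    exact (MulEquiv.prime_iff (MvPolynomial.uniqueAlgEquiv R ({j} : Set (Fin m))).symm).2 hp
  have h4 := (prime_rename_iff ({j} : Set (Fin m))).2 h1
  rw [rename_toMvPolynomial] at h4
  exact h4

/-- division by `1 + κ X ^ a` preserves subrings of coefficients -/
theorem coeff_mem_of_mul {K : Type} [Field K] (R : Subring K) {m : ℕ} (j : Fin m) {a : ℕ}
    (ha : 0 < a) (κ : K) (hκ : κ ∈ R) (H : MvPolynomial (Fin m) K)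
    (hG : ∀ d, coeff d ((C κ * X j ^ a + 1) * H) ∈ R) (d : Fin m →₀ ℕ) : coeff d H ∈ R := by
  classical
  -- induction on the exponent of `X j`
  induction hn : d j using Nat.strong_induction_on generalizing d with
  | _ n ih =>
    have h1 : coeff d H = coeff d ((C κ * X j ^ a + 1) * H) - coeff d (C κ * X j ^ a * H) := by
      rw [← coeff_sub]
      congr 1
      ring
    rw [h1]
    refine R.sub_mem (hG d) ?_
    have h2 : C κ * X j ^ a * H = monomial (Finsupp.single j a) κ * H := by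
      rw [C_mul_X_pow_eq_monomial]
    rw [h2, coeff_monomial_mul']
    split_ifs with h3
    · refine R.mul_mem hκ ?_
      have h4 : a ≤ d j := by simpa using h3 j
      exact ih (d j - a) (by omega) (d - Finsupp.single j a) (by simp)
    · exact R.zero_mem

/-- germs of rational numbers whose denominators are composed of the primes `b v` -/
noncomputable def RS {s : ℕ} (b : Fin s → ℕ) : Subring GG where
  carrier := {g | ∃ a : ℕ → ℚ, g = gm a ∧ ∀ᶠ n in (UU : Filter ℕ),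
    ∃ (N : ℕ) (z : ℤ), ((∏ v, b v : ℕ) : ℚ) ^ N * a n = z}
  mul_mem' := by
    rintro x y ⟨a, rfl, ha⟩ ⟨c, rfl, hc⟩
    refine ⟨_, gm_mul a c, ?_⟩
    filter_upwards [ha, hc] with n h1 h2
    obtain ⟨N, z, h1⟩ := h1
    obtain ⟨N', z', h2⟩ := h2
    refine ⟨N + N', z * z', ?_⟩
    push_cast at h1 h2 ⊢
    rw [← h1, ← h2, pow_add]
    ring
  one_mem' := ⟨fun _ => 1, gm_one.symm, Eventually.of_forall fun n => ⟨0, 1, by simp⟩⟩
  add_mem' := by
    rintro x y ⟨a, rfl, ha⟩ ⟨c, rfl, hc⟩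
    refine ⟨_, gm_add a c, ?_⟩
    filter_upwards [ha, hc] with n h1 h2
    obtain ⟨N, z, h1⟩ := h1
    obtain ⟨N', z', h2⟩ := h2
    refine ⟨N + N', (∏ v, b v : ℕ) ^ N' * z + (∏ v, b v : ℕ) ^ N * z', ?_⟩
    push_cast at h1 h2 ⊢
    rw [← h1, ← h2, pow_add]
    ring
  zero_mem' := ⟨fun _ => 0, gm_zero.symm, Eventually.of_forall fun n => ⟨0, 0, by simp⟩⟩
  neg_mem' := by
    rintro x ⟨a, rfl, ha⟩
    refine ⟨_, gm_neg a, ?_⟩
    filter_upwards [ha] with n h1
    obtain ⟨N, z, h1⟩ := h1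
    refine ⟨N, -z, ?_⟩
    push_cast at h1 ⊢
    rw [← h1]
    ring

variable {s : ℕ} {b : Fin s → ℕ}

lemma mem_RS {a : ℕ → ℚ} : gm a ∈ RS b ↔ ∀ᶠ n in (UU : Filter ℕ),
    ∃ (N : ℕ) (z : ℤ), ((∏ v, b v : ℕ) : ℚ) ^ N * a n = z := by
  constructor
  · rintro ⟨c, hc, h⟩
    filter_upwards [gm_eq.1 hc, h] with n h1 h2
    rw [h1]
    exact h2
  · intro h
    exact ⟨a, rfl, h⟩

lemma RS_int (z : ℕ → ℤ) : gm (fun n => (z n : ℚ)) ∈ RS b := by
  rw [mem_RS]
  exact Eventually.of_forall fun n => ⟨0, z n, by simp⟩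

lemma su_int (hb : ∀ v, (b v).Prime) {x : ℚ} (hx : IsSU b x) :
    ∃ (N : ℕ) (z : ℤ), ((∏ v, b v : ℕ) : ℚ) ^ N * x = z := by
  obtain ⟨σ, e, hσ, rfl⟩ := hx
  obtain ⟨k, hk⟩ : ∃ k : ℕ, ∀ v, (e v).natAbs ≤ k :=
    ⟨∑ v, (e v).natAbs, fun v =>
      Finset.single_le_sum (f := fun v => (e v).natAbs) (fun _ _ => Nat.zero_le _)
        (Finset.mem_univ v)⟩
  refine ⟨k, σ * ∏ v, (b v : ℤ) ^ ((k : ℤ) + e v).toNat, ?_⟩
  push_cast
  rw [mul_left_comm, ← Finset.prod_pow, ← Finset.prod_mul_distrib]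
  congr 1
  refine Finset.prod_congr rfl fun v _ => ?_
  have hbv : (b v : ℚ) ≠ 0 := by exact_mod_cast (hb v).ne_zero
  rw [← zpow_natCast, ← zpow_natCast, ← zpow_add₀ hbv]
  congr 1
  have h3 := hk v
  rw [Int.toNat_of_nonneg (by omega)]

lemma RS_su (hb : ∀ v, (b v).Prime) {a : ℕ → ℚ} (ha : ∀ n, IsSU b (a n)) : gm a ∈ RS b := by
  rw [mem_RS]
  exact Eventually.of_forall fun n => su_int hb (ha n)

end Pool.Agent.H95.EB
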