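import Mathlib
import Pool.Agent.H95.EB.Dv

/-!
# Common divisors of `b ^ (2 ^ m) + 1` and of sums of unit germs
-/

set_option autoImplicit false

namespace Pool.Agent.H95.EB

open Filter Topology Pool.Agent.TH932.Germs Pool.Agent.TH551.SU Pool.Agent.TH551.SU.WT
open Pool.Agent.Y724.Vj MvPolynomial

variable {L : ℕ → ℝ}

lemma gm_mem_KK (hL : Tendsto L atTop atTop) {c : ℕ → ℤ} (hc : Negl L c) :
    gm (fun n => (c n : ℚ)) ∈ KK L hL :=
  ⟨c, fun _ => 1, hc, Negl.one hL, by simp, by congr 1; funext n; simp⟩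

lemma gm_add_one (a : ℕ → ℚ) : gm a + 1 = gm (fun n => a n + 1) := rfl

/-- **The dichotomy for germs.** -/
theorem germ_main {s : ℕ} {b : Fin s → ℕ} (hb : ∀ v, (b v).Prime) (hbi : Function.Injective b)
    {β : ℕ} (hβ : 2 ≤ β) (hodd : ∀ p : ℕ, p.Prime → p ≠ 2 → ∀ c : ℕ, c ^ p ≠ β)
    (μ : ℕ → ℕ) (hμ : Tendsto μ atTop atTop) (hL : Tendsto (fun n => (2 : ℝ) ^ (μ n)) atTop atTop)
    (hsu : ∀ n, IsSU b ((β : ℚ) ^ (2 ^ (μ n))))
    (hcop : ∀ n v, Nat.Coprime (β ^ (2 ^ (μ n)) + 1) (b v))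
    {k : ℕ} (c : Fin k → ℕ → ℤ) (hc : ∀ i, Negl (fun n => (2 : ℝ) ^ (μ n)) (c i))
    (u : Fin k → ℕ → ℚ) (hu : ∀ i n, IsSU b (u i n))
    (hB : ∀ i, Bd (fun n => (2 : ℝ) ^ (μ n)) (gm (u i))) (z : ℕ → ℤ)
    (hz : ∀ n, (z n : ℚ) = ∑ i, c i n * u i n) :
    (∀ᶠ n in (UU : Filter ℕ), ((β ^ (2 ^ (μ n)) + 1 : ℕ) : ℤ) ∣ z n) ∨
      Negl (fun n => (2 : ℝ) ^ (μ n)) (fun n => (Int.gcd (z n) ((β ^ (2 ^ (μ n)) + 1 : ℕ) : ℤ) : ℤ)) := by
  classical
  obtain ⟨L, hLd⟩ : ∃ L : ℕ → ℝ, L = fun n => (2 : ℝ) ^ (μ n) := ⟨_, rfl⟩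
  rw [← hLd] at hL hc hB ⊢
  obtain ⟨t, ht⟩ : ∃ t : ℕ → ℚ, t = fun n => (β : ℚ) ^ (2 ^ (μ n)) := ⟨_, rfl⟩
  have hβr : (1 : ℝ) < β := by exact_mod_cast (by omega : 1 < β)
  have hlβ : 0 < Real.log β := Real.log_pos hβr
  have hexp : ∀ n, ((β : ℝ)) ^ (2 ^ (μ n)) = Real.exp (Real.log β * L n) := by
    intro n
    have h1 : L n = ((2 ^ (μ n) : ℕ) : ℝ) := by
      rw [hLd]
      push_cast
      rfl
    rw [h1, mul_comm, Real.exp_nat_mul, Real.exp_log (by linarith)]
  -- `t` is bounded and not negligible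
  have hBt : Bd L (gm t) := by
    refine ⟨fun n => (β : ℤ) ^ (2 ^ (μ n)), fun _ => 1, Real.log β, ?_, ?_, ?_, ?_⟩
    · refine Eventually.of_forall fun n => ?_
      push_cast
      rw [abs_of_nonneg (by positivity), hexp]
    · filter_upwards [L_nonneg hL] with n hn
      rw [Int.cast_one, abs_one]
      exact Real.one_le_exp (by positivity)
    · exact Eventually.of_forall fun n => one_ne_zero
    · rw [ht]
      congr 1
      funext n
      simp
  have htK : gm t ∉ KK L hL := by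
    intro h
    rw [mem_KK_iff] at h
    have h1 := h.1 (Real.log β / 2) (by positivity)
    obtain ⟨n, h2, h3⟩ := (h1.and (ev_of_atTop (hL.eventually_gt_atTop 0))).exists
    rw [ht] at h2
    have h4 : ((β : ℚ) ^ (2 ^ (μ n))).num = (β : ℤ) ^ (2 ^ (μ n)) := by
      rw [Rat.num_pow, Rat.num_natCast]
    simp only at h2
    rw [h4] at h2
    push_cast at h2
    rw [abs_of_nonneg (by positivity), hexp, Real.exp_le_exp] at h2
    nlinarith
  -- the parameters
  obtain ⟨m, T, j0, a, A, hT, hTB, ha, ht0, hAi, hind⟩ := exists_param hb hL (Fin.cons t u)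
    (by
      intro i n
      refine Fin.cases ?_ (fun i => ?_) i
      · rw [ht]; exact hsu n
      · exact hu i n)
    (by
      intro i
      refine Fin.cases ?_ (fun i => ?_) i
      · exact hBt
      · exact hB i)
    htK
  rw [Fin.cons_zero] at ht0
  have hT0 : ∀ j, gm (T j) ≠ 0 := fun j => gsu_ne_zero hb ⟨T j, rfl, hT j⟩
  have hTn : ∀ j n, T j n ≠ 0 := by
    intro j n
    obtain ⟨σ, e, hσ, hx⟩ := hT j n
    rw [hx]
    refine mul_ne_zero ?_ (Finset.prod_ne_zero_iff.2 fun v _ => zpow_ne_zero _ ?_)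
    · rcases hσ with h | h <;> simp [h]
    · exact_mod_cast (hb v).ne_zero
  obtain ⟨κ0, hκ0⟩ : ∃ κ0 : KK L hL, (κ0 : GG) = gm t / gm (T j0) ^ a := ⟨⟨_, ht0⟩, rfl⟩
  have hκ : ∀ i : Fin k, ∃ κ : KK L hL, (κ : GG) * mon (fun j => gm (T j)) (A i.succ) = gm (u i) := by
    intro i
    have h1 := hAi i.succ
    rw [Fin.cons_succ] at h1
    refine ⟨⟨_, h1⟩, ?_⟩
    rw [div_mul_cancel₀]
    rw [← gm_mseq]
    exact gsu_ne_zero hb ⟨_, rfl, fun n => mseq_su hb hT _ n⟩
  choose κ hκ using hκ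
  have hcK : ∀ i, ∃ e : KK L hL, (e : GG) = gm (fun n => (c i n : ℚ)) := fun i =>
    ⟨⟨_, gm_mem_KK hL (hc i)⟩, rfl⟩
  choose e he using hcK
  -- the common exponent
  obtain ⟨B, hBA⟩ : ∃ B : ℕ, ∀ i j, (A i j).natAbs ≤ B := by
    refine ⟨∑ i, ∑ j, (A i j).natAbs, fun i j => ?_⟩
    calc (A i j).natAbs ≤ ∑ j, (A i j).natAbs :=
          Finset.single_le_sum (f := fun j => (A i j).natAbs) (fun _ _ => Nat.zero_le _)
            (Finset.mem_univ j)
      _ ≤ _ := Finset.single_le_sum (f := fun i => ∑ j, (A i j).natAbs)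
            (fun _ _ => Nat.zero_le _) (Finset.mem_univ i)
  obtain ⟨G, hG⟩ : ∃ G : MvPolynomial (Fin m) (KK L hL), G = ∑ i : Fin k,
      C (e i * κ i) * monomial (Finsupp.equivFunOnFinite.symm fun j => (A i.succ j + B).toNat) 1 :=
    ⟨_, rfl⟩
  obtain ⟨f, hf⟩ : ∃ f : MvPolynomial (Fin m) (KK L hL), f = C κ0 * X j0 ^ a + 1 := ⟨_, rfl⟩
  have hmonB : ∀ i : Fin k, (∏ j, gm (T j) ^ ((A i.succ j + B).toNat)) =
      mon (fun j => gm (T j)) (A i.succ) * mon (fun j => gm (T j)) (fun _ => (B : ℤ)) := by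
    intro i
    rw [← mon_add hT0]
    unfold mon
    refine Finset.prod_congr rfl fun j _ => ?_
    have h1 := hBA i.succ j
    rw [← zpow_natCast, Int.toNat_of_nonneg (by omega)]
  have hevG : aeval (fun k => gm (T k)) G =
      gm (fun n => (z n : ℚ)) * mon (fun j => gm (T j)) (fun _ => (B : ℤ)) := by
    have h1 : gm (fun n => (z n : ℚ)) = ∑ i, gm (fun n => (c i n : ℚ)) * gm (u i) := by
      simp only [hz]
      rw [gm_sum]
      rfl
    rw [hG, map_sum, h1, Finset.sum_mul]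
    refine Finset.sum_congr rfl fun i _ => ?_
    rw [map_mul, aeval_C, aeval_monomial, map_one, one_mul,
      Finsupp.prod_fintype _ _ (fun _ => pow_zero _)]
    have h2 : ∏ j, gm (T j) ^ ((Finsupp.equivFunOnFinite.symm fun j => (A i.succ j + B).toNat) j) =
        ∏ j, gm (T j) ^ ((A i.succ j + B).toNat) := rfl
    rw [h2, hmonB, ← hκ i, ← he i, map_mul]
    have h3 : ∀ x : KK L hL, algebraMap (KK L hL) GG x = (x : GG) := fun _ => rfl
    rw [h3, h3]
    ring
  have hevf : aeval (fun k => gm (T k)) f = gm (fun n => ((β ^ (2 ^ (μ n)) + 1 : ℕ) : ℚ)) := by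
    rw [hf, map_add, map_mul, map_pow, aeval_X, aeval_C, map_one]
    have h3 : ∀ x : KK L hL, algebraMap (KK L hL) GG x = (x : GG) := fun _ => rfl
    rw [h3, hκ0, div_mul_cancel₀ _ (pow_ne_zero _ (hT0 j0)), gm_add_one, ht]
    congr 1
    funext n
    push_cast
    rfl
  have hirr := irrK hL hβ hodd ha μ hμ (T j0) (hTn j0) κ0 (by rw [hκ0, ht])
  have hfp : Prime f := by
    have h1 := prime_toMv j0 hirr.prime
    rw [hf]
    simpa using h1
  by_cases hdiv : f ∣ G
  · left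
    obtain ⟨H, hH⟩ := hdiv
    obtain ⟨R, hR⟩ : ∃ R : Subring (KK L hL), R = (RS b).comap (algebraMap (KK L hL) GG) := ⟨_, rfl⟩
    have hmR : ∀ x : KK L hL, x ∈ R ↔ (x : GG) ∈ RS b := fun x => by rw [hR]; rfl
    have hmonR : ∀ w : Fin m → ℤ, mon (fun j => gm (T j)) w ∈ RS b := fun w => by
      rw [← gm_mseq]
      exact RS_su hb (fun n => mseq_su hb hT _ n)
    have hmon_neg : ∀ w : Fin m → ℤ, (mon (fun j => gm (T j)) w)⁻¹ =
        mon (fun j => gm (T j)) (fun j => - w j) := by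
      intro w
      unfold mon
      rw [← Finset.prod_inv_distrib]
      exact Finset.prod_congr rfl fun j _ => (zpow_neg _ _).symm
    have hκ0R : κ0 ∈ R := by
      rw [hmR, hκ0, div_eq_mul_inv]
      refine (RS b).mul_mem ?_ ?_
      · rw [ht]; exact RS_su hb hsu
      · have h1 : (gm (T j0) ^ a)⁻¹ = mon (fun j => gm (T j)) (fun j => if j = j0 then -(a : ℤ) else 0) := by
          unfold mon
          rw [Finset.prod_eq_single j0]
          · simp
          · intro j _ hj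
            simp [hj]
          · intro h
            exact absurd (Finset.mem_univ _) h
        rw [h1]
        exact hmonR _
    have hκR : ∀ i, κ i ∈ R := by
      intro i
      rw [hmR]
      have h1 : (κ i : GG) = gm (u i) * mon (fun j => gm (T j)) (fun j => - A i.succ j) := by
        rw [← hmon_neg, ← hκ i, mul_assoc, mul_inv_cancel₀, mul_one]
        rw [← gm_mseq]
        exact gsu_ne_zero hb ⟨_, rfl, fun n => mseq_su hb hT _ n⟩
      rw [h1]
      exact (RS b).mul_mem (RS_su hb (hu i)) (hmonR _)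
    have heR : ∀ i, e i ∈ R := fun i => by
      rw [hmR, he]
      exact RS_int _
    have hGR : ∀ d, coeff d G ∈ R := by
      intro d
      rw [hG, coeff_sum]
      refine R.sum_mem fun i _ => ?_
      rw [coeff_C_mul, coeff_monomial]
      split_ifs
      · rw [mul_one]
        exact R.mul_mem (heR i) (hκR i)
      · rw [mul_zero]
        exact R.zero_mem
    have hHR : ∀ d, coeff d H ∈ R := by
      refine coeff_mem_of_mul R j0 ha κ0 hκ0R H ?_
      rw [← hf, ← hH]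
      exact hGR
    have hevH : aeval (fun k => gm (T k)) H ∈ RS b := by
      rw [aeval_def, eval₂_eq']
      refine (RS b).sum_mem fun d _ => (RS b).mul_mem ((hmR _).1 (hHR d)) ?_
      exact (RS b).prod_mem fun j _ => (RS b).pow_mem (RS_su hb (hT j)) _
    have h1 := hevG
    rw [hH, map_mul, hevf] at h1
    have hF0 : gm (fun n => ((β ^ (2 ^ (μ n)) + 1 : ℕ) : ℚ)) ≠ 0 := by
      rw [gm_ne_zero]
      exact Eventually.of_forall fun n => by positivity
    have hmB0 : mon (fun j => gm (T j)) (fun _ => (B : ℤ)) ≠ 0 := by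
      rw [← gm_mseq]
      exact gsu_ne_zero hb ⟨_, rfl, fun n => mseq_su hb hT _ n⟩
    have h2 : gm (fun n => (z n : ℚ) / ((β ^ (2 ^ (μ n)) + 1 : ℕ) : ℚ)) =
        aeval (fun k => gm (T k)) H * mon (fun j => gm (T j)) (fun j => - (B : ℤ)) := by
      rw [← hmon_neg (fun _ => (B : ℤ)), ← gm_div, div_eq_iff hF0]
      field_simp
      rw [← h1]
      ring
    have h3 : gm (fun n => (z n : ℚ) / ((β ^ (2 ^ (μ n)) + 1 : ℕ) : ℚ)) ∈ RS b := by
      rw [h2]
      exact (RS b).mul_mem hevH (hmonR _)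
    rw [mem_RS] at h3
    filter_upwards [h3] with n hn
    obtain ⟨N, w, hw⟩ := hn
    have h4 : ((∏ v, b v : ℕ) : ℤ) ^ N * z n = ((β ^ (2 ^ (μ n)) + 1 : ℕ) : ℤ) * w := by
      have h5 : ((β ^ (2 ^ (μ n)) + 1 : ℕ) : ℚ) ≠ 0 := by positivity
      have h6 : (((∏ v, b v : ℕ) : ℤ) ^ N * z n : ℚ) = (((β ^ (2 ^ (μ n)) + 1 : ℕ) : ℤ) : ℚ) * w := by
        rw [← hw]
        push_cast at h5 ⊢
        field_simp
      exact_mod_cast h6
    have h5 : IsCoprime ((β ^ (2 ^ (μ n)) + 1 : ℕ) : ℤ) (((∏ v, b v : ℕ) : ℤ) ^ N) := by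
      apply IsCoprime.pow_right
      rw [Nat.isCoprime_iff_coprime]
      exact Nat.Coprime.prod_right fun v _ => hcop n v
    exact h5.dvd_of_dvd_mul_left ⟨w, h4⟩
  · right
    have hrp : IsRelPrime f G := (hfp.irreducible.isRelPrime_iff_not_dvd).2 hdiv
    have hG0 : G ≠ 0 := by
      rintro h
      exact hdiv (h ▸ dvd_zero f)
    obtain ⟨D, hD⟩ : ∃ D : ℕ → ℕ, D = fun n => Int.gcd (z n) ((β ^ (2 ^ (μ n)) + 1 : ℕ) : ℤ) :=
      ⟨_, rfl⟩
    have hDF : ∀ n, D n ∣ β ^ (2 ^ (μ n)) + 1 := by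
      intro n
      rw [hD]
      have := Int.gcd_dvd_right (z n) ((β ^ (2 ^ (μ n)) + 1 : ℕ) : ℤ)
      exact_mod_cast this
    have hDz : ∀ n, (D n : ℤ) ∣ z n := by
      intro n
      rw [hD]
      exact Int.gcd_dvd_left (z n) ((β ^ (2 ^ (μ n)) + 1 : ℕ) : ℤ)
    have hD0 : ∀ n, D n ≠ 0 := fun n h0 => by
      have h1 := hDF n
      rw [h0, zero_dvd_iff] at h1
      omega
    choose F' hF' using hDF
    choose z' hz' using hDz
    have hind' := alg_ind hb hbi hL T hT hind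
    have h1 := gcd_germ b hb hbi hL T hT hTB hind' f G hfp.ne_zero hG0 hrp D hD0
      (fun n v => Nat.Coprime.coprime_dvd_left ⟨F' n, hF' n⟩ (hcop n v)) (Real.log β + 1)
      (by
        filter_upwards [ev_of_atTop (hL.eventually_ge_atTop 1)] with n hn
        have h2 : D n ≤ β ^ (2 ^ (μ n)) + 1 := Nat.le_of_dvd (Nat.succ_pos _) ⟨F' n, hF' n⟩
        have h3 : ((D n : ℕ) : ℝ) ≤ (β : ℝ) ^ (2 ^ (μ n)) + 1 := by exact_mod_cast h2
        rw [hexp] at h3
        refine h3.trans ?_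
        rw [add_mul, Real.exp_add, one_mul]
        have h4 : (1 : ℝ) ≤ Real.exp (Real.log β * L n) := Real.one_le_exp (by positivity)
        have h5 : (2 : ℝ) ≤ Real.exp (L n) := by
          have := Real.add_one_le_exp (L n)
          linarith
        nlinarith)
      (by
        rw [hevf, gm_mul]
        have h2 : (fun n => 1 / (D n : ℚ) * ((β ^ (2 ^ (μ n)) + 1 : ℕ) : ℚ)) =
            fun n => (((F' n : ℕ) : ℤ) : ℚ) := by
          funext n
          have h3 : (D n : ℚ) ≠ 0 := by exact_mod_cast hD0 n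
          rw [hF' n]
          push_cast
          field_simp
        rw [h2]
        exact Sg.int hL _)
      (by
        rw [hevG, ← mul_assoc, gm_mul]
        have h2 : (fun n => 1 / (D n : ℚ) * (z n : ℚ)) = fun n => ((z' n : ℤ) : ℚ) := by
          funext n
          have h3 : (D n : ℚ) ≠ 0 := by exact_mod_cast hD0 n
          rw [hz' n]
          push_cast
          field_simp
        rw [h2]
        refine Sg.mul (Sg.int hL _) ?_
        rw [← gm_mseq]
        refine Sg.of_su b hb hbi hL (fun n => mseq_su hb hT _ n) ?_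
        rw [gm_mseq]
        exact Bd.mon' hL hTB hT0 _)
    rw [hD] at h1
    exact h1

end Pool.Agent.H95.EB
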