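import Mathlib
import Pool.Agent.H95.EB.Main

/-!
# Generalised Fermat numbers behave like primes for short sums of `S`-units: the theorem
-/

set_option autoImplicit false

namespace Pool.Agent.H95.EB

open Filter Topology Pool.Agent.TH932.Germs Pool.Agent.TH551.SU Pool.Agent.TH551.SU.WT
open Pool.Agent.Y724.Vj

/-- up to its sign, `x` is a product of powers (with positive or negative exponents) of primes
of `S` -/
def IsSUnit (S : Finset ℕ) (x : ℚ) : Prop :=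
  x ≠ 0 ∧ x.num.natAbs.primeFactors ⊆ S ∧ x.den.primeFactors ⊆ S

/-- `z` is a sum of `k` products `c u`, where `c` is an integer with `|c| ≤ M` and `u` an `S`-unit
whose numerator and denominator are at most `H` -/
def Short (S : Finset ℕ) (k : ℕ) (M H : ℝ) (z : ℤ) : Prop :=
  ∃ (c : Fin k → ℤ) (u : Fin k → ℚ), (∀ i, |(c i : ℝ)| ≤ M) ∧
    (∀ i, IsSUnit S (u i) ∧ |((u i).num : ℝ)| ≤ H ∧ ((u i).den : ℝ) ≤ H) ∧
    (z : ℚ) = ∑ i, c i * u i

section base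
variable (P : Finset ℕ) (hP : ∀ p ∈ P, p.Prime)

/-- the enumeration of a finite set -/
noncomputable def bs (v : Fin P.card) : ℕ := (P.equivFin.symm v : ℕ)

include hP in
lemma bs_prime (v : Fin P.card) : (bs P v).Prime := hP _ (P.equivFin.symm v).2

lemma bs_mem (v : Fin P.card) : bs P v ∈ P := (P.equivFin.symm v).2

lemma bs_inj : Function.Injective (bs P) := fun _ _ h =>
  P.equivFin.symm.injective (Subtype.ext h)

lemma bs_surj {p : ℕ} (hp : p ∈ P) : ∃ v, bs P v = p := ⟨P.equivFin ⟨p, hp⟩, by simp [bs]⟩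

include hP in
lemma su_of (x : ℚ) (h0 : x ≠ 0) (h1 : x.num.natAbs.primeFactors ⊆ P)
    (h2 : x.den.primeFactors ⊆ P) : IsSU (bs P) x := by
  have hb0 : ∀ v, bs P v ≠ 0 := fun v => (bs_prime P hP v).ne_zero
  have hnat : ∀ N : ℕ, N ≠ 0 → N.primeFactors ⊆ P → IsSU (bs P) (N : ℚ) := by
    intro N hN hNP
    refine Pool.Agent.TH551.SU.Ht.IsSU.nat hb0 N hN fun p hp hpN => bs_surj P (hNP ?_)
    rw [Nat.mem_primeFactors]
    exact ⟨hp, hpN, hN⟩
  have h3 := hnat _ (Int.natAbs_ne_zero.2 (Rat.num_ne_zero.2 h0)) h1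
  have h4 := su_zpow (bs_prime P hP) (hnat _ x.den_ne_zero h2) (-1)
  have h5 : IsSU (bs P) ((SignType.sign x.num : ℤ) : ℚ) := by
    refine ⟨(SignType.sign x.num : ℤ), fun _ => 0, ?_, by simp⟩
    rcases lt_or_gt_of_ne (Rat.num_ne_zero.2 h0) with h | h
    · right; simp [sign_neg h]
    · left; simp [sign_pos h]
  have h6 : x = ((SignType.sign x.num : ℤ) : ℚ) * ((x.num.natAbs : ℕ) : ℚ) * (x.den : ℚ) ^ (-1 : ℤ) := by
    have h7 : ((SignType.sign x.num : ℤ) : ℚ) * ((x.num.natAbs : ℕ) : ℚ) = (x.num : ℚ) := by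
      rw [← Int.cast_natCast, ← Int.cast_mul, Int.natCast_natAbs, sign_mul_abs]
    rw [h7, zpow_neg_one, ← div_eq_mul_inv, Rat.num_div_den]
  rw [h6]
  exact su_mul (bs_prime P hP) (su_mul (bs_prime P hP) h5 h3) h4

end base

/-- a prime up to `2 ^ m` does not divide `β ^ (2 ^ m) + 1` if `β` is even -/
lemma coprime_small {β m p : ℕ} (hβ : Even β) (hp : p.Prime) (hpm : p ≤ 2 ^ m) :
    Nat.Coprime (β ^ (2 ^ m) + 1) p := by
  rw [Nat.coprime_comm, hp.coprime_iff_not_dvd]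
  intro hdvd
  by_cases hp2 : p = 2
  · rw [hp2, ← even_iff_two_dvd] at hdvd
    have h1 : Even (β ^ (2 ^ m)) := hβ.pow_of_ne_zero (by positivity)
    rw [Nat.even_add_one] at hdvd
    exact hdvd h1
  · obtain ⟨k, hk⟩ := Nat.pow_pow_add_primeFactors_one_lt hp hp2 hdvd
    have hk0 : k ≠ 0 := by
      rintro rfl
      rw [zero_mul, zero_add] at hk
      exact hp.ne_one hk
    have h1 : 2 ^ (m + 1) ≤ k * 2 ^ (m + 1) := Nat.le_mul_of_pos_left _ (Nat.pos_of_ne_zero hk0)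
    rw [pow_succ] at h1
    rw [pow_succ] at hk
    omega

theorem main (β : ℕ) (hβ : Even β) (hβ2 : 2 ≤ β)
    (hodd : ∀ p : ℕ, p.Prime → p ≠ 2 → ∀ c : ℕ, c ^ p ≠ β) (S : Finset ℕ) (k : ℕ) (C ε : ℝ)
    (hε : 0 < ε) : ∃ δ : ℝ, 0 < δ ∧ ∃ m₀ : ℕ, ∀ m : ℕ, m₀ ≤ m → ∀ z : ℤ,
      Short S k (((β ^ (2 ^ m) + 1 : ℕ) : ℝ) ^ δ) (((β ^ (2 ^ m) + 1 : ℕ) : ℝ) ^ C) z →
      ((β ^ (2 ^ m) + 1 : ℕ) : ℤ) ∣ z ∨
        (Int.gcd z ((β ^ (2 ^ m) + 1 : ℕ) : ℤ) : ℝ) ≤ ((β ^ (2 ^ m) + 1 : ℕ) : ℝ) ^ ε := by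
  classical
  by_contra hcon
  push Not at hcon
  obtain ⟨P, hPd⟩ : ∃ P : Finset ℕ, P = S.filter Nat.Prime ∪ β.primeFactors := ⟨_, rfl⟩
  have hP : ∀ p ∈ P, p.Prime := by
    intro p hp
    rw [hPd, Finset.mem_union, Finset.mem_filter] at hp
    rcases hp with hp | hp
    · exact hp.2
    · exact Nat.prime_of_mem_primeFactors hp
  obtain ⟨m₁, hm₁⟩ : ∃ m₁ : ℕ, ∀ p ∈ P, p ≤ 2 ^ m₁ := by
    refine ⟨P.sup id, fun p hp => ?_⟩
    have h1 : p ≤ P.sup id := Finset.le_sup (f := id) hp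
    exact h1.trans (Nat.lt_two_pow_self).le
  have hch : ∀ n : ℕ, ∃ m : ℕ, n + m₁ ≤ m ∧ ∃ z : ℤ,
      Short S k (((β ^ (2 ^ m) + 1 : ℕ) : ℝ) ^ (1 / ((n : ℝ) + 1)))
        (((β ^ (2 ^ m) + 1 : ℕ) : ℝ) ^ C) z ∧ ¬ ((β ^ (2 ^ m) + 1 : ℕ) : ℤ) ∣ z ∧
        ((β ^ (2 ^ m) + 1 : ℕ) : ℝ) ^ ε < (Int.gcd z ((β ^ (2 ^ m) + 1 : ℕ) : ℤ) : ℝ) := by
    intro n
    obtain ⟨m, hm, z, hz⟩ := hcon (1 / ((n : ℝ) + 1)) (by positivity) (n + m₁)
    exact ⟨m, hm, z, hz⟩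
  choose μ hμm z hsh hndvd hgcd using hch
  choose c u hc hu hz using hsh
  have hμ : Tendsto μ atTop atTop :=
    tendsto_atTop_mono (fun n => (Nat.le_add_right n m₁).trans (hμm n)) tendsto_id
  have hL : Tendsto (fun n => (2 : ℝ) ^ (μ n)) atTop atTop :=
    (tendsto_pow_atTop_atTop_of_one_lt (by norm_num : (1 : ℝ) < 2)).comp hμ
  have hβr : (1 : ℝ) < β := by exact_mod_cast (by omega : 1 < β)
  have hlβ : 0 < Real.log β := Real.log_pos hβr
  have hexp : ∀ n, ((β : ℝ)) ^ (2 ^ (μ n)) = Real.exp (Real.log β * (2 : ℝ) ^ (μ n)) := by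
    intro n
    have h1 : (2 : ℝ) ^ (μ n) = ((2 ^ (μ n) : ℕ) : ℝ) := by
      push_cast
      rfl
    rw [h1, mul_comm, Real.exp_nat_mul, Real.exp_log (by linarith)]
  have hL1 : ∀ n, (1 : ℝ) ≤ (2 : ℝ) ^ (μ n) := fun n => one_le_pow₀ (by norm_num)
  have hF1 : ∀ n, (1 : ℝ) ≤ ((β ^ (2 ^ (μ n)) + 1 : ℕ) : ℝ) := fun n => by
    push_cast
    have : (0 : ℝ) ≤ (β : ℝ) ^ (2 ^ (μ n)) := by positivity
    linarith
  have hFle : ∀ n, ((β ^ (2 ^ (μ n)) + 1 : ℕ) : ℝ) ≤ Real.exp ((Real.log β + 1) * (2 : ℝ) ^ (μ n)) := by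
    intro n
    push_cast
    rw [hexp, add_mul, Real.exp_add, one_mul]
    have h4 : (1 : ℝ) ≤ Real.exp (Real.log β * (2 : ℝ) ^ (μ n)) :=
      Real.one_le_exp (by positivity)
    have h5 : (2 : ℝ) ≤ Real.exp ((2 : ℝ) ^ (μ n)) := by
      have := Real.add_one_le_exp ((2 : ℝ) ^ (μ n))
      have := hL1 n
      linarith
    nlinarith
  have hFpow : ∀ n (x : ℝ), 0 ≤ x → ((β ^ (2 ^ (μ n)) + 1 : ℕ) : ℝ) ^ x ≤
      Real.exp (((Real.log β + 1) * x) * (2 : ℝ) ^ (μ n)) := by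
    intro n x hx
    refine (Real.rpow_le_rpow (by linarith [hF1 n]) (hFle n) hx).trans ?_
    rw [← Real.exp_mul]
    apply Real.exp_le_exp.2
    nlinarith
  have hFge : ∀ n, Real.exp ((Real.log β * ε) * (2 : ℝ) ^ (μ n)) ≤
      ((β ^ (2 ^ (μ n)) + 1 : ℕ) : ℝ) ^ ε := by
    intro n
    have h1 : Real.exp ((Real.log β * ε) * (2 : ℝ) ^ (μ n)) = ((β : ℝ) ^ (2 ^ (μ n))) ^ ε := by
      rw [hexp, ← Real.exp_mul]
      congr 1
      ring
    rw [h1]
    refine Real.rpow_le_rpow (by positivity) ?_ hε.le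
    push_cast
    linarith
  -- apply the theorem for germs
  have hmain := germ_main (b := bs P) (bs_prime P hP) (bs_inj P) hβ2 hodd μ hμ hL
    (by
      intro n
      refine su_of P hP _ (by positivity) ?_ ?_
      · rw [Rat.num_pow, Rat.num_natCast, Int.natAbs_pow, Int.natAbs_natCast]
        rw [Nat.primeFactors_pow _ (by positivity), hPd]
        exact Finset.subset_union_right
      · rw [Rat.den_pow, Rat.den_natCast, one_pow, Nat.primeFactors_one]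
        exact Finset.empty_subset _)
    (by
      intro n v
      refine coprime_small hβ (bs_prime P hP v) ((hm₁ _ (bs_mem P v)).trans ?_)
      exact Nat.pow_le_pow_right (by norm_num) (by have := hμm n; omega))
    (fun i n => c n i)
    (by
      intro i η hη
      have h1 : Tendsto (fun n : ℕ => (Real.log β + 1) * (1 / ((n : ℝ) + 1))) atTop (𝓝 0) := by
        have := tendsto_one_div_add_atTop_nhds_zero_nat (𝕜 := ℝ)
        simpa using this.const_mul (Real.log β + 1)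
      filter_upwards [ev_of_atTop (h1.eventually (gt_mem_nhds hη))] with n hn
      refine (hc n i).trans ((hFpow n _ (by positivity)).trans ?_)
      apply Real.exp_le_exp.2
      have := hL1 n
      nlinarith)
    (fun i n => u n i)
    (by
      intro i n
      obtain ⟨⟨h0, h1, h2⟩, -, -⟩ := hu n i
      have hsub : ∀ N : ℕ, N.primeFactors ⊆ S → N.primeFactors ⊆ P := by
        intro N hN p hp
        rw [hPd, Finset.mem_union, Finset.mem_filter]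
        exact Or.inl ⟨hN hp, Nat.prime_of_mem_primeFactors hp⟩
      exact su_of P hP _ h0 (hsub _ h1) (hsub _ h2))
    (by
      intro i
      have hFC : ∀ n, ((β ^ (2 ^ (μ n)) + 1 : ℕ) : ℝ) ^ C ≤
          Real.exp (((Real.log β + 1) * |C|) * (2 : ℝ) ^ (μ n)) := fun n =>
        (Real.rpow_le_rpow_of_exponent_le (hF1 n) (le_abs_self C)).trans (hFpow n _ (abs_nonneg C))
      refine ⟨fun n => (u n i).num, fun n => ((u n i).den : ℤ), (Real.log β + 1) * |C|, ?_, ?_, ?_, ?_⟩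
      · exact Eventually.of_forall fun n => ((hu n i).2.1).trans (hFC n)
      · refine Eventually.of_forall fun n => ?_
        rw [Int.cast_natCast, abs_of_nonneg (Nat.cast_nonneg _)]
        exact ((hu n i).2.2).trans (hFC n)
      · refine Eventually.of_forall fun n => ?_
        show ((u n i).den : ℤ) ≠ 0
        exact_mod_cast (u n i).den_ne_zero
      · congr 1
        funext n
        rw [Int.cast_natCast, Rat.num_div_den])
    z (fun n => hz n)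
  rcases hmain with h | h
  · obtain ⟨n, hn⟩ := h.exists
    exact hndvd n hn
  · obtain ⟨n, hn⟩ := (h (Real.log β * ε / 2) (by positivity)).exists
    have h1 := hgcd n
    have h2 := hFge n
    rw [Int.cast_natCast, abs_of_nonneg (Nat.cast_nonneg _)] at hn
    have h3 : Real.exp (Real.log β * ε / 2 * (2 : ℝ) ^ (μ n)) <
        Real.exp ((Real.log β * ε) * (2 : ℝ) ^ (μ n)) := by
      apply Real.exp_lt_exp.2
      have := hL1 n
      have : 0 < Real.log β * ε := by positivity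
      nlinarith
    linarith

/-- **Euclid's lemma.** -/
theorem euclid (β : ℕ) (hβ : Even β) (hβ2 : 2 ≤ β)
    (hodd : ∀ p : ℕ, p.Prime → p ≠ 2 → ∀ c : ℕ, c ^ p ≠ β) (S : Finset ℕ) (k r : ℕ) (C : ℝ) :
    ∃ δ : ℝ, 0 < δ ∧ ∃ m₀ : ℕ, ∀ m : ℕ, m₀ ≤ m → ∀ z : Fin r → ℤ,
      (∀ i, Short S k (((β ^ (2 ^ m) + 1 : ℕ) : ℝ) ^ δ) (((β ^ (2 ^ m) + 1 : ℕ) : ℝ) ^ C) (z i)) →
      ((β ^ (2 ^ m) + 1 : ℕ) : ℤ) ∣ ∏ i, z i → ∃ i, ((β ^ (2 ^ m) + 1 : ℕ) : ℤ) ∣ z i := by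
  obtain ⟨δ, hδ, m₀, h⟩ := main β hβ hβ2 hodd S k C (1 / ((r : ℝ) + 1)) (by positivity)
  refine ⟨δ, hδ, m₀, fun m hm z hz hdvd => ?_⟩
  by_contra hcon
  push Not at hcon
  have h1 : ∀ i, (Int.gcd (z i) ((β ^ (2 ^ m) + 1 : ℕ) : ℤ) : ℝ) ≤
      ((β ^ (2 ^ m) + 1 : ℕ) : ℝ) ^ (1 / ((r : ℝ) + 1)) := fun i =>
    (h m hm (z i) (hz i)).resolve_left (hcon i)
  have hF : (1 : ℝ) < ((β ^ (2 ^ m) + 1 : ℕ) : ℝ) := by
    push_cast
    have : (0 : ℝ) < (β : ℝ) ^ (2 ^ m) := by positivity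
    linarith
  obtain ⟨F, hFd⟩ : ∃ F : ℕ, F = β ^ (2 ^ m) + 1 := ⟨_, rfl⟩
  rw [← hFd] at h1 hF hdvd
  have h2 : ∀ T : Finset (Fin r), ((Int.gcd (∏ i ∈ T, z i) (F : ℤ) : ℕ) : ℝ) ≤
      ((F : ℝ) ^ (1 / ((r : ℝ) + 1))) ^ T.card := by
    intro T
    classical
    induction T using Finset.induction_on with
    | empty => simp
    | insert i T hi ih =>
      rw [Finset.prod_insert hi, Finset.card_insert_of_notMem hi, pow_succ, mul_comm (_ ^ _)]
      have h3 : Int.gcd (z i * ∏ i ∈ T, z i) (F : ℤ) ≤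
          Int.gcd (z i) (F : ℤ) * Int.gcd (∏ i ∈ T, z i) (F : ℤ) := by
        have h4 : Int.gcd (z i * ∏ i ∈ T, z i) (F : ℤ) ∣
            Int.gcd (z i) (F : ℤ) * Int.gcd (∏ i ∈ T, z i) (F : ℤ) := by
          exact Int.gcd_mul_left_dvd_mul_gcd _ _ _
        refine Nat.le_of_dvd (Nat.mul_pos ?_ ?_) h4
        · refine Nat.pos_of_ne_zero fun h5 => ?_
          rw [Int.gcd_eq_zero_iff] at h5
          have : (F : ℤ) ≠ 0 := by rw [hFd]; positivity
          exact this h5.2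
        · refine Nat.pos_of_ne_zero fun h5 => ?_
          rw [Int.gcd_eq_zero_iff] at h5
          have : (F : ℤ) ≠ 0 := by rw [hFd]; positivity
          exact this h5.2
      calc ((Int.gcd (z i * ∏ i ∈ T, z i) (F : ℤ) : ℕ) : ℝ) ≤
          (Int.gcd (z i) (F : ℤ) : ℝ) * (Int.gcd (∏ i ∈ T, z i) (F : ℤ) : ℝ) := by exact_mod_cast h3
        _ ≤ _ := mul_le_mul (h1 i) ih (Nat.cast_nonneg _) (by positivity)
  have h3 := h2 Finset.univ
  have h4 : Int.gcd (∏ i, z i) (F : ℤ) = F := by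
    rw [Int.gcd_comm]
    have := Int.gcd_eq_left_iff_dvd (a := (F : ℤ)) (b := ∏ i, z i) (by positivity)
    have h5 := this.2 hdvd
    exact_mod_cast h5
  rw [h4, Finset.card_univ, Fintype.card_fin, ← Real.rpow_natCast, ← Real.rpow_mul (by linarith)] at h3
  have h5 : (F : ℝ) ^ (1 / ((r : ℝ) + 1) * (r : ℕ)) < (F : ℝ) ^ (1 : ℝ) := by
    apply Real.rpow_lt_rpow_of_exponent_lt hF
    rw [div_mul_eq_mul_div, one_mul, div_lt_one (by positivity)]
    linarith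
  rw [Real.rpow_one] at h5
  linarith

end Pool.Agent.H95.EB
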